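import Mathlib
import Pool.Agent.TH119.MX.Reindex

/-!
# One-parameter groups with natural weights
-/

set_option linter.unusedSectionVars false

namespace Pool.Agent.TH119.PL

open Finset Matrix Pool.Agent.W437.HK Pool.Agent.TH119.DR Pool.Agent.TH119.MX

variable {B κ : Type*} [Fintype B] [DecidableEq B] [Fintype κ] [DecidableEq κ]

theorem act_diag (m : B → ℂ) (w : (κ → B) → ℂ) (I : κ → B) :
    act (diagonal m) w I = (∑ k, m (I k)) * w I := by
  unfold act
  rw [Finset.sum_mul]
  refine Finset.sum_congr rfl fun k _ => ?_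
  rw [Finset.sum_eq_single (I k)]
  · rw [diagonal_apply_eq, Function.update_eq_self]
  · intro b _ hb
    rw [diagonal_apply_ne _ hb, zero_mul]
  · intro h
    exact absurd (Finset.mem_univ _) h

theorem pull_diag (m : B → ℂ) (w : (κ → B) → ℂ) (I : κ → B) :
    pull (diagonal m) w I = (∏ k, m (I k)) * w I := by
  unfold pull
  rw [Finset.sum_eq_single I]
  · congr 1
    exact Finset.prod_congr rfl fun k _ => diagonal_apply_eq _ _
  · intro J _ hJ
    obtain ⟨k, hk⟩ := Function.ne_iff.1 hJ
    have h1 : (diagonal m : Matrix B B ℂ) (J k) (I k) = 0 := diagonal_apply_ne _ hk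
    rw [Finset.prod_eq_zero (Finset.mem_univ k) h1, zero_mul]
  · intro h
    exact absurd (Finset.mem_univ _) h

theorem pull_diag_mem (m : B → ℕ) {U : Submodule ℂ ((κ → B) → ℂ)}
    (hU : ∀ u ∈ U, act (diagonal fun b => (m b : ℂ)) u ∈ U) (s : ℂ) :
    ∀ u ∈ U, pull (diagonal fun b => s ^ m b) u ∈ U := by
  intro u hu
  have h1 : ∀ n : ℕ, (fun I => (∑ k, (m (I k) : ℂ)) ^ n * u I) ∈ U := by
    intro n
    induction n with
    | zero => simpa using hu
    | succ n ih =>
      have h2 := hU _ ih
      refine (congrArg (· ∈ U) ?_).mp h2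
      funext I
      rw [act_diag, pow_succ]
      ring
  have h2 : ∀ p : Polynomial ℂ, (fun I => p.eval (∑ k, (m (I k) : ℂ)) * u I) ∈ U := by
    intro p
    induction p using Polynomial.induction_on' with
    | add p q hp hq =>
      refine (congrArg (· ∈ U) ?_).mp (U.add_mem hp hq)
      funext I
      rw [Polynomial.eval_add, add_mul]
      rfl
    | monomial n a =>
      refine (congrArg (· ∈ U) ?_).mp (U.smul_mem a (h1 n))
      funext I
      rw [Polynomial.eval_monomial, Pi.smul_apply, smul_eq_mul, mul_assoc]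
  set N := Fintype.card κ * ∑ b, m b with hN
  have h3 := h2 (Lagrange.interpolate (Finset.range (N + 1)) (fun n : ℕ => (n : ℂ)) fun n => s ^ n)
  refine (congrArg (· ∈ U) ?_).mp h3
  funext I
  rw [pull_diag]
  congr 1
  have h4 : ∑ k, m (I k) ∈ Finset.range (N + 1) := by
    rw [Finset.mem_range, Nat.lt_succ_iff, hN, ← Finset.card_univ, ← smul_eq_mul]
    refine Finset.sum_le_card_nsmul _ _ _ fun k _ => ?_
    exact Finset.single_le_sum (f := m) (fun _ _ => Nat.zero_le _) (Finset.mem_univ _)
  have h5 : (∑ k, (m (I k) : ℂ)) = ((∑ k, m (I k) : ℕ) : ℂ) := by push_cast; rfl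
  rw [h5, Lagrange.eval_interpolate_at_node _ (fun a _ b _ h => Nat.cast_injective h) h4,
    Finset.prod_pow_eq_pow_sum]

variable {H : Set (Matrix B B ℂ)}

/-- **One-parameter groups** of diagonalizable matrices with natural eigenvalues. -/
theorem pres_of_diag {g g' : Matrix B B ℂ} (h1 : g * g' = 1) (h2 : g' * g = 1) (m : B → ℕ)
    (hS : ∀ d, Stab H d (g * diagonal (fun b => (m b : ℂ)) * g')) (s : ℂ) :
    Pres H (g * diagonal (fun b => s ^ m b) * g') := by
  intro d w hw
  set m' : Option (B × B) → ℕ := fun o => o.elim 0 fun p => m p.2 with hm'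
  have e1 : LL (diagonal (fun b => (m b : ℂ))) = diagonal fun o => (m' o : ℂ) := by
    ext o o'
    rcases o with _ | ⟨i, j⟩ <;> rcases o' with _ | ⟨i', j'⟩
    · simp [LL, m']
    · simp [LL]
    · simp [LL]
    · simp only [LL, Matrix.of_apply, Option.elim_some, hm']
      by_cases h : i = i'
      · by_cases h' : j = j'
        · subst h; subst h'
          simp
        · rw [if_pos h, diagonal_apply_ne _ (Ne.symm h'), diagonal_apply_ne]
          simp [h']
      · rw [if_neg h, diagonal_apply_ne]
        simp [h]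
  have e2 : MM (diagonal (fun b => s ^ m b)) = diagonal fun o => s ^ m' o := by
    ext o o'
    rcases o with _ | ⟨i, j⟩ <;> rcases o' with _ | ⟨i', j'⟩
    · simp [MM, m']
    · simp [MM]
    · simp [MM]
    · simp only [MM, Matrix.of_apply, Option.elim_some, hm']
      by_cases h : i = i'
      · by_cases h' : j = j'
        · subst h; subst h'
          simp
        · rw [if_pos h, diagonal_apply_ne _ (Ne.symm h'), diagonal_apply_ne]
          simp [h']
      · rw [if_neg h, diagonal_apply_ne]
        simp [h]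
  have hMM1 : MM (1 : Matrix B B ℂ) = 1 := by
    have h3 := MM_eq (0 : Matrix B B ℂ) 0
    simpa using h3
  have e3 : MM g * MM g' = 1 := by rw [MM_mul_MM, h2, hMM1]
  have e4 : MM g' * MM g = 1 := by rw [MM_mul_MM, h1, hMM1]
  -- the transported space
  let U : Submodule ℂ ((Fin d → Option (B × B)) → ℂ) := (Wt H d).comap (pullL (MM g))
  have htw : MM g * LL (g * diagonal (fun b => (m b : ℂ)) * g') =
      (diagonal fun o => (m' o : ℂ)) * MM g := by
    have h3 : LL (g * diagonal (fun b => (m b : ℂ)) * g') =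
        MM g' * (LL (diagonal (fun b => (m b : ℂ))) * MM g) := by
      rw [LL_mul_MM, MM_mul_LL]
    rw [h3, ← Matrix.mul_assoc, e3, Matrix.one_mul, e1]
  have hU : ∀ u ∈ U, act (diagonal fun o => (m' o : ℂ)) u ∈ U := by
    intro u hu
    change pull (MM g) _ ∈ Wt H d
    rw [← act_pull htw]
    exact hS d _ hu
  obtain ⟨u, hu⟩ : ∃ u, pull (MM g') w = u := ⟨_, rfl⟩
  have hw2 : pull (MM g) u = w := by
    rw [← hu, pull_pull, e4, pull_one]
  have huU : u ∈ U := by
    change pull (MM g) u ∈ Wt H d
    rw [hw2]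
    exact hw
  have h4 := pull_diag_mem m' hU s u huU
  have h5 : MM (g * diagonal (fun b => s ^ m b) * g') =
      MM g' * ((diagonal fun o => s ^ m' o) * MM g) := by
    rw [← e2, MM_mul_MM, MM_mul_MM]
  rw [h5, ← pull_pull, ← pull_pull, hu]
  exact h4

end Pool.Agent.TH119.PL
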