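import Mathlib
import Pool.Agent.TH119.PL.Diag

/-!
# The period matrices of polylogarithms
-/

set_option linter.unusedSectionVars false

namespace Pool.Agent.TH119.PL

open Finset Matrix Pool.Agent.W437.HK Pool.Agent.TH119.DR Pool.Agent.TH119.MX
open scoped Nat

variable {n : ℕ}

/-- The matrix with entries `τ ^ i x ^ (j - i) / (j - i)!`, `1 ≤ i ≤ j ≤ n`. -/
noncomputable def Bm (n : ℕ) (τ x : ℂ) : Matrix (Fin n) (Fin n) ℂ := Matrix.of fun i j =>
  if i ≤ j then τ ^ ((i : ℕ) + 1) * x ^ ((j : ℕ) - i) / (((j : ℕ) - i)! : ℂ) else 0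

/-- The weights. -/
def Em (n : ℕ) : Matrix (Fin n) (Fin n) ℂ := diagonal fun i => (((i : ℕ) + 1 : ℕ) : ℂ)

/-- The shift. -/
def Nm (n : ℕ) : Matrix (Fin n) (Fin n) ℂ := Matrix.of fun i j =>
  if (j : ℕ) = i + 1 then 1 else 0

theorem Nm_mul (M : Matrix (Fin n) (Fin n) ℂ) (i j : Fin n) :
    (Nm n * M) i j = if h : (i : ℕ) + 1 < n then M ⟨i + 1, h⟩ j else 0 := by
  rw [Matrix.mul_apply]
  split_ifs with h
  · rw [Finset.sum_eq_single (⟨i + 1, h⟩ : Fin n)]
    · simp [Nm]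
    · intro b _ hb
      have : ¬ (b : ℕ) = i + 1 := fun e => hb (Fin.ext e)
      simp [Nm, this]
    · intro h'
      exact absurd (Finset.mem_univ _) h'
  · refine Finset.sum_eq_zero fun b _ => ?_
    have : ¬ (b : ℕ) = i + 1 := fun e => h (e ▸ b.2)
    simp [Nm, this]

theorem Em_mul (M : Matrix (Fin n) (Fin n) ℂ) (i j : Fin n) :
    (Em n * M) i j = (((i : ℕ) + 1 : ℕ) : ℂ) * M i j := by
  unfold Em
  rw [Matrix.diagonal_mul]

theorem mul_Em (M : Matrix (Fin n) (Fin n) ℂ) (i j : Fin n) :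
    (M * Em n) i j = M i j * (((j : ℕ) + 1 : ℕ) : ℂ) := by
  unfold Em
  rw [Matrix.mul_diagonal]

theorem EN : Em n * Nm n - Nm n * Em n = -Nm n := by
  ext i j
  rw [Matrix.sub_apply, Em_mul, mul_Em, Matrix.neg_apply]
  simp only [Nm, Matrix.of_apply]
  split_ifs with h
  · rw [h]
    push_cast
    ring
  · ring

theorem Bm_mul (τ x τ' x' : ℂ) : Bm n τ x * Bm n τ' x' = Bm n (τ * τ') (x * τ' + x') := by
  ext i j
  rw [Matrix.mul_apply]
  have h1 : ∀ l : Fin n, Bm n τ x i l * Bm n τ' x' l j =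
      (fun l : ℕ => if (i : ℕ) ≤ l ∧ l ≤ j then τ ^ ((i : ℕ) + 1) * x ^ (l - i) / ((l - i)! : ℂ) *
        (τ' ^ (l + 1) * x' ^ ((j : ℕ) - l) / (((j : ℕ) - l)! : ℂ)) else 0) l := by
    intro l
    simp only [Bm, Matrix.of_apply]
    by_cases h : i ≤ l
    · by_cases h' : l ≤ j
      · have h2 : (i : ℕ) ≤ l ∧ (l : ℕ) ≤ j := ⟨h, h'⟩
        simp only [if_pos h, if_pos h', if_pos h2]
      · have h2 : ¬ ((i : ℕ) ≤ l ∧ (l : ℕ) ≤ j) := fun e => h' e.2
        simp only [if_neg h', mul_zero, if_neg h2]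
    · have h2 : ¬ ((i : ℕ) ≤ l ∧ (l : ℕ) ≤ j) := fun e => h e.1
      simp only [if_neg h, zero_mul, if_neg h2]
  refine (Finset.sum_congr rfl fun l _ => h1 l).trans
    ((Fin.sum_univ_eq_sum_range (fun l : ℕ => if (i : ℕ) ≤ l ∧ l ≤ j then
      τ ^ ((i : ℕ) + 1) * x ^ (l - i) / ((l - i)! : ℂ) *
        (τ' ^ (l + 1) * x' ^ ((j : ℕ) - l) / (((j : ℕ) - l)! : ℂ)) else 0) n).trans ?_)
  by_cases hij : i ≤ j
  · have h2 : Finset.Ico (i : ℕ) (j + 1) ⊆ Finset.range n := by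
      intro l hl
      rw [Finset.mem_Ico] at hl
      rw [Finset.mem_range]
      have := j.2
      omega
    rw [← Finset.sum_subset h2]
    · rw [Finset.sum_Ico_eq_sum_range]
      have hd : (j : ℕ) + 1 - i = ((j : ℕ) - i) + 1 := by
        have : (i : ℕ) ≤ j := hij
        omega
      rw [hd]
      simp only [Bm, Matrix.of_apply, if_pos hij]
      set d := (j : ℕ) - i with hdd
      rw [add_pow, Finset.mul_sum, Finset.sum_div]
      refine Finset.sum_congr rfl fun m hm => ?_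
      rw [Finset.mem_range, Nat.lt_succ_iff] at hm
      have h3 : (i : ℕ) ≤ i + m ∧ (i : ℕ) + m ≤ j := ⟨by omega, by omega⟩
      have h4 : (i : ℕ) + m - i = m := by omega
      have h5 : (j : ℕ) - (i + m) = d - m := by omega
      rw [if_pos h3, h4, h5]
      have h6 : ((d.choose m : ℕ) : ℂ) * (m ! : ℂ) * ((d - m)! : ℂ) = (d ! : ℂ) := by
        exact_mod_cast Nat.choose_mul_factorial_mul_factorial hm
      have f1 : (m ! : ℂ) ≠ 0 := by exact_mod_cast Nat.factorial_ne_zero m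
      have f2 : ((d - m)! : ℂ) ≠ 0 := by exact_mod_cast Nat.factorial_ne_zero (d - m)
      have f3 : (d ! : ℂ) ≠ 0 := by exact_mod_cast Nat.factorial_ne_zero d
      have h7 : ((d.choose m : ℕ) : ℂ) / (d ! : ℂ) = 1 / ((m ! : ℂ) * ((d - m)! : ℂ)) := by
        rw [div_eq_div_iff f3 (mul_ne_zero f1 f2), ← h6]
        ring
      calc τ ^ ((i : ℕ) + 1) * x ^ m / (m ! : ℂ) * (τ' ^ ((i : ℕ) + m + 1) * x' ^ (d - m) /
            ((d - m)! : ℂ))
          = (τ * τ') ^ ((i : ℕ) + 1) * ((x * τ') ^ m * x' ^ (d - m)) *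
            (1 / ((m ! : ℂ) * ((d - m)! : ℂ))) := by
            rw [mul_pow, mul_pow]
            field_simp
            ring
        _ = _ := by
            rw [← h7]
            ring
    · intro l _ hl
      have h3 : ¬ ((i : ℕ) ≤ l ∧ l ≤ j) := by
        rw [Finset.mem_Ico] at hl
        omega
      exact if_neg h3
  · simp only [Bm, Matrix.of_apply, if_neg hij]
    refine Finset.sum_eq_zero fun l _ => if_neg ?_
    intro h
    exact hij (show (i : ℕ) ≤ j by omega)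

theorem Bm_one : Bm n 1 0 = 1 := by
  ext i j
  simp only [Bm, Matrix.of_apply, Matrix.one_apply, one_pow, one_mul]
  by_cases h : i = j
  · subst h
    simp
  · rw [if_neg h]
    by_cases h' : i ≤ j
    · have h2 : (j : ℕ) - i ≠ 0 := by
        have h3 : (i : ℕ) ≤ j := h'
        have h4 : ¬ (i : ℕ) = j := fun e => h (Fin.ext e)
        omega
      rw [if_pos h', zero_pow h2, zero_div]
    · rw [if_neg h']

theorem Bm_inv {τ : ℂ} (hτ : τ ≠ 0) (x : ℂ) : Bm n τ x * Bm n τ⁻¹ (-(x * τ⁻¹)) = 1 := by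
  rw [Bm_mul, mul_inv_cancel₀ hτ, add_neg_cancel, Bm_one]

theorem Bm_inv' {τ : ℂ} (hτ : τ ≠ 0) (x : ℂ) : Bm n τ⁻¹ (-(x * τ⁻¹)) * Bm n τ x = 1 := by
  rw [Bm_mul, inv_mul_cancel₀ hτ, neg_mul, mul_assoc, inv_mul_cancel₀ hτ, mul_one, neg_add_cancel,
    Bm_one]

theorem Bm_conj (x : ℂ) : Bm n 1 x * Em n = (Em n + x • Nm n) * Bm n 1 x := by
  ext i j
  rw [mul_Em, Matrix.add_mul, Matrix.add_apply, Em_mul, Matrix.smul_mul, Matrix.smul_apply,
    Nm_mul, smul_eq_mul]
  simp only [Bm, Matrix.of_apply, one_pow, one_mul]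
  by_cases h : i ≤ j
  · have h0 : (i : ℕ) ≤ j := h
    rw [if_pos h]
    by_cases h' : (i : ℕ) = j
    · have h2 : (if h : (i : ℕ) + 1 < n then (if (⟨i + 1, h⟩ : Fin n) ≤ j then
          x ^ ((j : ℕ) - (i + 1)) / (((j : ℕ) - (i + 1))! : ℂ) else 0) else 0) = 0 := by
        split_ifs with h1 h2
        · exfalso
          have : (i : ℕ) + 1 ≤ j := h2
          omega
        · rfl
        · rfl
      rw [h2, h']
      ring
    · have h1 : (i : ℕ) + 1 < n := by
        have := j.2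
        omega
      have h2 : (⟨i + 1, h1⟩ : Fin n) ≤ j := by
        change (i : ℕ) + 1 ≤ j
        omega
      rw [dif_pos h1, if_pos h2]
      obtain ⟨d, hd⟩ : ∃ d, (j : ℕ) = i + 1 + d := ⟨(j : ℕ) - (i + 1), by omega⟩
      have h3 : (j : ℕ) - i = d + 1 := by omega
      have h4 : (j : ℕ) - (i + 1) = d := by omega
      rw [h3, h4, hd, Nat.factorial_succ]
      have f1 : (d ! : ℂ) ≠ 0 := by exact_mod_cast Nat.factorial_ne_zero d
      have f2 : ((d : ℂ) + 1) ≠ 0 := by exact_mod_cast Nat.succ_ne_zero d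
      push_cast
      field_simp
      ring
  · have h2 : (if h : (i : ℕ) + 1 < n then (if (⟨i + 1, h⟩ : Fin n) ≤ j then
          x ^ ((j : ℕ) - (i + 1)) / (((j : ℕ) - (i + 1))! : ℂ) else 0) else 0) = 0 := by
      split_ifs with h1 h2
      · exfalso
        have h3 : (i : ℕ) + 1 ≤ j := h2
        exact h (show (i : ℕ) ≤ j by omega)
      · rfl
      · rfl
    rw [if_neg h, h2]
    ring

theorem Bm_der {τ : ℂ} (hτ : τ ≠ 0) (x : ℂ) (δ : Derivation ℚ ℂ ℂ) :
    (Bm n τ x).map δ = ((δ τ / τ) • Em n + (δ x / τ) • Nm n) * Bm n τ x := by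
  ext i j
  rw [Matrix.add_mul, Matrix.add_apply, Matrix.smul_mul, Matrix.smul_mul, Matrix.smul_apply,
    Matrix.smul_apply, Em_mul, Nm_mul, smul_eq_mul, smul_eq_mul, Matrix.map_apply]
  simp only [Bm, Matrix.of_apply]
  have hfac : ∀ (m : ℕ) (y : ℂ), δ (y / (m ! : ℂ)) = δ y / (m ! : ℂ) := by
    intro m y
    have h1 := δ.map_smul_of_tower ((m ! : ℚ)⁻¹) y
    rw [Rat.smul_def, Rat.smul_def] at h1
    push_cast at h1
    rw [div_eq_inv_mul, h1, div_eq_inv_mul]
  by_cases h : i ≤ j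
  · have h0 : (i : ℕ) ≤ j := h
    rw [if_pos h]
    by_cases h' : (i : ℕ) = j
    · have h2 : (if h : (i : ℕ) + 1 < n then (if (⟨i + 1, h⟩ : Fin n) ≤ j then
          τ ^ ((i : ℕ) + 1 + 1) * x ^ ((j : ℕ) - (i + 1)) / (((j : ℕ) - (i + 1))! : ℂ)
            else 0) else 0) = 0 := by
        split_ifs with h1 h2
        · exfalso
          have : (i : ℕ) + 1 ≤ j := h2
          omega
        · rfl
        · rfl
      rw [h2, h']
      simp only [Nat.sub_self, pow_zero, mul_one, Nat.factorial_zero, Nat.cast_one, div_one,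
        mul_zero, add_zero]
      rw [Derivation.leibniz_pow]
      simp only [smul_eq_mul, nsmul_eq_mul, Nat.add_sub_cancel]
      field_simp
      ring
    · have h1 : (i : ℕ) + 1 < n := by
        have := j.2
        omega
      have h2 : (⟨i + 1, h1⟩ : Fin n) ≤ j := by
        change (i : ℕ) + 1 ≤ j
        omega
      rw [dif_pos h1, if_pos h2]
      obtain ⟨d, hd⟩ : ∃ d, (j : ℕ) = i + 1 + d := ⟨(j : ℕ) - (i + 1), by omega⟩
      have h3 : (j : ℕ) - i = d + 1 := by omega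
      have h4 : (j : ℕ) - (i + 1) = d := by omega
      rw [h3, h4, hfac, Derivation.leibniz, Derivation.leibniz_pow, Derivation.leibniz_pow,
        Nat.factorial_succ]
      simp only [smul_eq_mul, nsmul_eq_mul, Nat.add_sub_cancel]
      have f1 : (d ! : ℂ) ≠ 0 := by exact_mod_cast Nat.factorial_ne_zero d
      have f2 : ((d : ℂ) + 1) ≠ 0 := by exact_mod_cast Nat.succ_ne_zero d
      push_cast
      field_simp
      ring
  · have h2 : (if h : (i : ℕ) + 1 < n then (if (⟨i + 1, h⟩ : Fin n) ≤ j then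
          τ ^ ((i : ℕ) + 1 + 1) * x ^ ((j : ℕ) - (i + 1)) / (((j : ℕ) - (i + 1))! : ℂ)
            else 0) else 0) = 0 := by
      split_ifs with h1 h2
      · exfalso
        have h3 : (i : ℕ) + 1 ≤ j := h2
        exact h (show (i : ℕ) ≤ j by omega)
      · rfl
      · rfl
    rw [if_neg h, h2, map_zero]
    ring

end Pool.Agent.TH119.PL
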