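import Mathlib
import Pool.Agent.TH119.PL.Mats

/-!
# The Lie algebra of the motivic Galois group of polylogarithms
-/

set_option linter.unusedSectionVars false

namespace Pool.Agent.TH119.PL

open Finset Matrix Pool.Agent.W437.HK Pool.Agent.TH119.DR Pool.Agent.TH119.MX

variable {C : Type} [Fintype C] [DecidableEq C] {n : ℕ}

/-- Weight, logarithms, polylogarithms. -/
abbrev LQ (C : Type) (n : ℕ) := ℂ × (C → ℂ) × (C → Fin n → ℂ)

/-- The indices of the bases. -/
abbrev IQ (C : Type) (n : ℕ) := (Unit ⊕ Fin n) × C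

/-- The matrices of the group. -/
noncomputable def gm (τ : ℂ) (x : C → ℂ) (v : C → Fin n → ℂ) : Matrix (IQ C n) (IQ C n) ℂ :=
  blockDiagonal fun a => fromBlocks 1 (replicateRow Unit (v a)) 0 (Bm n τ (x a))

/-- The matrices of the Lie algebra. -/
noncomputable def lm (X : LQ C n) : Matrix (IQ C n) (IQ C n) ℂ :=
  blockDiagonal fun a => fromBlocks 0 (replicateRow Unit (X.2.2 a)) 0 (X.1 • Em n + X.2.1 a • Nm n)

theorem gm_mul (τ τ' : ℂ) (x x' : C → ℂ) (v v' : C → Fin n → ℂ) :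
    gm τ x v * gm τ' x' v' = gm (τ * τ') (fun a => x a * τ' + x' a)
      (fun a => v' a + v a ᵥ* Bm n τ' (x' a)) := by
  unfold gm
  rw [← blockDiagonal_mul]
  congr 1
  funext a
  rw [fromBlocks_multiply, Bm_mul]
  congr 1
  · rw [Matrix.one_mul, Matrix.mul_zero, add_zero]
  · rw [Matrix.one_mul, replicateRow_add, replicateRow_vecMul]
  · rw [Matrix.zero_mul, Matrix.mul_zero, add_zero]
  · rw [Matrix.zero_mul, zero_add]

theorem gm_one : gm 1 0 0 = (1 : Matrix (IQ C n) (IQ C n) ℂ) := by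
  unfold gm
  simp only [Pi.zero_apply]
  rw [Bm_one]
  have h1 : replicateRow Unit (0 : Fin n → ℂ) = 0 := by
    ext i j
    rfl
  simp only [h1, fromBlocks_one]
  exact blockDiagonal_one

theorem gm_inv {τ : ℂ} (hτ : τ ≠ 0) (x : C → ℂ) (v : C → Fin n → ℂ) :
    gm τ x v * gm τ⁻¹ (fun a => -(x a * τ⁻¹)) (fun a => -(v a ᵥ* Bm n τ⁻¹ (-(x a * τ⁻¹)))) = 1 := by
  rw [gm_mul, ← gm_one, mul_inv_cancel₀ hτ]
  congr 1
  · funext a
    exact add_neg_cancel _
  · funext a
    exact neg_add_cancel _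

theorem lm_add (X Y : LQ C n) : lm X + lm Y = lm (X + Y) := by
  unfold lm
  rw [← blockDiagonal_add]
  congr 1
  funext a
  rw [Pi.add_apply, fromBlocks_add]
  congr 1
  · exact add_zero _
  · exact add_zero _
  · change X.1 • Em n + X.2.1 a • Nm n + (Y.1 • Em n + Y.2.1 a • Nm n) =
      (X.1 + Y.1) • Em n + (X.2.1 a + Y.2.1 a) • Nm n
    rw [add_smul, add_smul]
    abel

theorem lm_smul (c : ℂ) (X : LQ C n) : c • lm X = lm (c • X) := by
  unfold lm
  rw [← blockDiagonal_smul]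
  congr 1
  funext a
  rw [Pi.smul_apply, fromBlocks_smul]
  congr 1
  · exact smul_zero _
  · exact smul_zero _
  · change c • (X.1 • Em n + X.2.1 a • Nm n) = (c * X.1) • Em n + (c * X.2.1 a) • Nm n
    rw [smul_add, smul_smul, smul_smul]

/-- Apply a function to all coordinates. -/
def fq (f : ℂ → ℂ) (X : LQ C n) : LQ C n := (f X.1, fun a => f (X.2.1 a), fun a i => f (X.2.2 a i))

theorem lm_map {K : Subfield ℂ} (f : ℂ →ₗ[K] ℂ) (X : LQ C n) : (lm X).map f = lm (fq f X) := by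
  unfold lm
  rw [blockDiagonal_map _ _ (map_zero f)]
  congr 1
  funext a
  rw [fromBlocks_map, Matrix.map_zero _ (map_zero f), Matrix.map_zero _ (map_zero f)]
  congr 1
  ext i j
  rw [Matrix.map_apply, Matrix.add_apply, Matrix.smul_apply, Matrix.smul_apply, map_add,
    Matrix.add_apply, Matrix.smul_apply, Matrix.smul_apply, smul_eq_mul, smul_eq_mul, smul_eq_mul,
    smul_eq_mul]
  have hE : Em n i j ∈ K := by
    unfold Em
    rw [Matrix.diagonal_apply]
    split_ifs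
    · exact natCast_mem K _
    · exact K.zero_mem
  have hN : Nm n i j ∈ K := by
    unfold Nm
    rw [Matrix.of_apply]
    split_ifs
    · exact K.one_mem
    · exact K.zero_mem
  rw [lin_mul' f hE, lin_mul' f hN]
  rfl

/-- The commutator. -/
noncomputable def bq (X Y : LQ C n) : LQ C n :=
  (0, fun a => X.2.1 a * Y.1 - X.1 * Y.2.1 a,
    fun a => X.2.2 a ᵥ* (Y.1 • Em n + Y.2.1 a • Nm n) - Y.2.2 a ᵥ* (X.1 • Em n + X.2.1 a • Nm n))

theorem fb_sub {α β : Type} (A A' : Matrix α α ℂ) (B B' : Matrix α β ℂ) (C' C'' : Matrix β α ℂ)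
    (D D' : Matrix β β ℂ) : fromBlocks A B C' D - fromBlocks A' B' C'' D' =
      fromBlocks (A - A') (B - B') (C' - C'') (D - D') := by
  ext (i | i) (j | j) <;> rfl

theorem lm_comm (X Y : LQ C n) : lm X * lm Y - lm Y * lm X = lm (bq X Y) := by
  unfold lm
  rw [← blockDiagonal_mul, ← blockDiagonal_mul, ← blockDiagonal_sub]
  congr 1
  funext a
  rw [Pi.sub_apply, fromBlocks_multiply, fromBlocks_multiply, fb_sub]
  congr 1
  · simp
  · rw [Matrix.zero_mul, Matrix.zero_mul, zero_add, zero_add, ← replicateRow_vecMul,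
      ← replicateRow_vecMul]
    ext i j
    rfl
  · simp
  · change _ = (0 : ℂ) • Em n + (X.2.1 a * Y.1 - X.1 * Y.2.1 a) • Nm n
    rw [Matrix.zero_mul, Matrix.zero_mul, zero_add, zero_add, zero_smul, zero_add]
    have h1 : (X.1 • Em n + X.2.1 a • Nm n) * (Y.1 • Em n + Y.2.1 a • Nm n) -
        (Y.1 • Em n + Y.2.1 a • Nm n) * (X.1 • Em n + X.2.1 a • Nm n) =
        (X.1 * Y.2.1 a - X.2.1 a * Y.1) • (Em n * Nm n - Nm n * Em n) := by
      simp only [Matrix.add_mul, Matrix.mul_add, Matrix.smul_mul, Matrix.mul_smul, smul_smul,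
        smul_sub, sub_smul]
      module
    rw [h1, EN, smul_neg, ← neg_smul]
    congr 1
    ring

theorem vecMul_Nm_zero (u : Fin (n + 1) → ℂ) : (u ᵥ* Nm (n + 1)) 0 = 0 := by
  rw [Matrix.vecMul, dotProduct]
  refine Finset.sum_eq_zero fun i _ => ?_
  have : ¬ ((0 : Fin (n + 1)) : ℕ) = i + 1 := by simp
  simp only [Nm, Matrix.of_apply, if_neg this, mul_zero]

theorem vecMul_Nm_succ (u : Fin (n + 1) → ℂ) (j : Fin (n + 1)) (i : ℕ) (hi : (j : ℕ) = i + 1) :
    (u ᵥ* Nm (n + 1)) j = u ⟨i, by have := j.2; omega⟩ := by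
  rw [Matrix.vecMul, dotProduct, Finset.sum_eq_single (⟨i, by have := j.2; omega⟩ : Fin (n + 1))]
  · simp only [Nm, Matrix.of_apply, if_pos hi, mul_one]
  · intro b _ hb
    have : ¬ (j : ℕ) = b + 1 := fun e => hb (Fin.ext (show (b : ℕ) = i by omega))
    simp only [Nm, Matrix.of_apply, if_neg this, mul_zero]
  · intro h
    exact absurd (Finset.mem_univ _) h

/-- The properties of the stabilizer. -/
structure GoodQ (K : Subfield ℂ) (τ : ℂ) (x : C → ℂ) (v : C → ℂ)
    (S : Submodule ℂ (LQ C (n + 1))) : Prop where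
  hbr : ∀ X ∈ S, ∀ Y ∈ S, bq X Y ∈ S
  hF : ∀ f : ℂ →ₗ[K] ℂ, ∀ X ∈ S, fq f X ∈ S
  hder : ∀ δ : Derivation ℚ ℂ ℂ, ∃ X ∈ S, X.1 = δ τ / τ ∧ (∀ a, X.2.1 a = δ (x a) / τ) ∧
    ∀ a, X.2.2 a 0 = δ (v a) / τ

/-- The linear independence of logarithms. -/
def IndepQ (K : Subfield ℂ) (τ : ℂ) (x : C → ℂ) (v : C → ℂ) : Prop :=
  ∀ α ∈ K, ∀ y : C ⊕ C → ℂ, (∀ i, y i ∈ K) → α * τ + y ⬝ᵥ Sum.elim x v ∈ K → α = 0 ∧ y = 0

variable {K : Subfield ℂ} {τ : ℂ} {x v : C → ℂ} {S : Submodule ℂ (LQ C (n + 1))}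

theorem GoodQ.exists_unit (hS : GoodQ K τ x v S) (hI : IndepQ K τ x v) (hτ : τ ≠ 0)
    (hKA : ∀ x, IsAlgebraic ℚ x ↔ x ∈ K) : ∃ W ∈ S, W.1 = 1 ∧ (∀ a, W.2.1 a ∈ K) ∧
      ∀ a i, W.2.2 a i ∈ K := by
  have hw : ¬ IsAlgebraic ℚ τ := by
    intro h
    have h1 := (hI 1 K.one_mem 0 (fun j => K.zero_mem) (by
      rw [one_mul, zero_dotProduct, add_zero]
      exact (hKA _).1 h)).1
    exact one_ne_zero h1
  obtain ⟨δ, hδ⟩ := exists_deriv hw
  obtain ⟨X, hX, hX1, -, -⟩ := hS.hder δ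
  obtain ⟨f, hfK, hf1⟩ := exists_retr K
  have h1 := hS.hF f _ (S.smul_mem (δ τ / τ)⁻¹ hX)
  refine ⟨_, h1, ?_, fun a => hfK _, fun a i => hfK _⟩
  change f ((δ τ / τ)⁻¹ * X.1) = 1
  rw [hX1, inv_mul_cancel₀ (div_ne_zero hδ hτ), hf1]

theorem GoodQ.lift (hS : GoodQ K τ x v S) (hI : IndepQ K τ x v) (hτ : τ ≠ 0)
    (hKA : ∀ x, IsAlgebraic ℚ x ↔ x ∈ K) (y : C ⊕ C → ℂ) :
    ∃ X ∈ S, X.1 = 0 ∧ (∀ a, X.2.1 a = y (Sum.inl a)) ∧ ∀ a, X.2.2 a 0 = y (Sum.inr a) := by
  classical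
  obtain ⟨W, hW, hW1, hW2, hW3⟩ := hS.exists_unit hI hτ hKA
  let A : Submodule ℂ (C ⊕ C → ℂ) :=
    { carrier := {y | ∃ X ∈ S, X.1 = 0 ∧ (∀ a, X.2.1 a = y (Sum.inl a)) ∧
        ∀ a, X.2.2 a 0 = y (Sum.inr a)}
      zero_mem' := ⟨0, S.zero_mem, rfl, fun _ => rfl, fun _ => rfl⟩
      add_mem' := by
        rintro y y' ⟨X, h1, h2, h3, h4⟩ ⟨X', h1', h2', h3', h4'⟩
        refine ⟨X + X', S.add_mem h1 h1', ?_, fun a => ?_, fun a => ?_⟩
        · change X.1 + X'.1 = 0
          rw [h2, h2', add_zero]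
        · change X.2.1 a + X'.2.1 a = y _ + y' _
          rw [h3, h3']
        · change X.2.2 a 0 + X'.2.2 a 0 = y _ + y' _
          rw [h4, h4']
      smul_mem' := by
        rintro c y ⟨X, h1, h2, h3, h4⟩
        refine ⟨c • X, S.smul_mem c h1, ?_, fun a => ?_, fun a => ?_⟩
        · change c * X.1 = 0
          rw [h2, mul_zero]
        · change c * X.2.1 a = c * y _
          rw [h3]
        · change c * X.2.2 a 0 = c * y _
          rw [h4] }
  by_contra hcon
  have hne : A ≠ ⊤ := by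
    intro h
    apply hcon
    have : y ∈ A := by rw [h]; exact Submodule.mem_top
    exact this
  have hA : ∀ f : ℂ →ₗ[K] ℂ, ∀ y ∈ A, (fun i => f (y i)) ∈ A := by
    rintro f y ⟨X, h1, h2, h3, h4⟩
    refine ⟨fq f X, hS.hF f X h1, ?_, fun a => ?_, fun a => ?_⟩
    · change f X.1 = 0
      rw [h2, map_zero]
    · change f (X.2.1 a) = f _
      rw [h3]
    · change f (X.2.2 a 0) = f _
      rw [h4]
  obtain ⟨a, ha0, haK, ha⟩ := exists_annih A hA hne
  set w : C ⊕ C → ℂ := Sum.elim W.2.1 (fun b => W.2.2 b 0) with hw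
  have hwK : ∀ i, w i ∈ K := by
    rintro (b | b)
    · exact hW2 b
    · exact hW3 b 0
  have hcK : a ⬝ᵥ w ∈ K := K.sum_mem fun i _ => K.mul_mem (haK i) (hwK i)
  have hz : IsAlgebraic ℚ (-(a ⬝ᵥ w) * τ + a ⬝ᵥ Sum.elim x v) := by
    by_contra hz
    obtain ⟨δ, hδ⟩ := exists_deriv hz
    apply hδ
    obtain ⟨X, hX, hX1, hX2, hX3⟩ := hS.hder δ
    have h1 := ha (fun i => Sum.elim (fun b => δ (x b)) (fun b => δ (v b)) i / τ -
      δ τ / τ * w i) ⟨X - (δ τ / τ) • W, S.sub_mem hX (S.smul_mem _ hW), by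
        change X.1 - δ τ / τ * W.1 = 0
        rw [hX1, hW1, mul_one, sub_self], fun b => by
        change X.2.1 b - δ τ / τ * W.2.1 b = _
        rw [hX2]
        rfl, fun b => by
        change X.2.2 b 0 - δ τ / τ * W.2.2 b 0 = _
        rw [hX3]
        rfl⟩
    have hδa : ∀ i, δ (a i) = 0 := fun i => deriv_alg δ ((hKA _).2 (haK i))
    have h2 : δ (a ⬝ᵥ Sum.elim x v) =
        a ⬝ᵥ Sum.elim (fun b => δ (x b)) (fun b => δ (v b)) := by
      unfold dotProduct
      rw [map_sum]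
      refine Finset.sum_congr rfl fun i _ => ?_
      rw [Derivation.leibniz, hδa, smul_zero, add_zero, smul_eq_mul]
      rcases i with b | b <;> rfl
    rw [map_add, h2, Derivation.leibniz, map_neg, deriv_alg δ ((hKA _).2 hcK), neg_zero, smul_zero,
      add_zero, smul_eq_mul]
    have h3 : a ⬝ᵥ (fun i => Sum.elim (fun b => δ (x b)) (fun b => δ (v b)) i / τ -
        δ τ / τ * w i) = (a ⬝ᵥ Sum.elim (fun b => δ (x b)) (fun b => δ (v b)) -
        δ τ * (a ⬝ᵥ w)) / τ := by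
      unfold dotProduct
      rw [Finset.mul_sum, ← Finset.sum_sub_distrib, Finset.sum_div]
      refine Finset.sum_congr rfl fun i _ => ?_
      field_simp
    rw [h3, div_eq_zero_iff] at h1
    have h4 := h1.resolve_right hτ
    linear_combination h4
  exact ha0 (hI _ (K.neg_mem hcK) a haK ((hKA _).1 hz)).2

/-- **The Lie algebra.** -/
theorem GoodQ.top (hS : GoodQ K τ x v S) (hI : IndepQ K τ x v) (hτ : τ ≠ 0)
    (hKA : ∀ x, IsAlgebraic ℚ x ↔ x ∈ K) (X : LQ C (n + 1)) : X ∈ S := by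
  classical
  have hlift := hS.lift hI hτ hKA
  -- the elements of one point
  let T : C → Submodule ℂ (Fin (n + 1) → ℂ) := fun a =>
    { carrier := {u | ((0, 0, Pi.single a u) : LQ C (n + 1)) ∈ S}
      zero_mem' := by
        change ((0, 0, Pi.single a 0) : LQ C (n + 1)) ∈ S
        rw [Pi.single_zero]
        exact S.zero_mem
      add_mem' := by
        intro u u' hu hu'
        have h1 := S.add_mem hu hu'
        change ((0, 0, Pi.single a (u + u')) : LQ C (n + 1)) ∈ S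
        rw [Pi.single_add]
        simpa only [Prod.mk_add_mk, add_zero] using h1
      smul_mem' := by
        intro c u hu
        have h1 := S.smul_mem c hu
        change ((0, 0, Pi.single a (c • u)) : LQ C (n + 1)) ∈ S
        rw [Pi.single_smul]
        simpa only [Prod.smul_mk, smul_zero] using h1 }
  have hT : ∀ a u, u ∈ T a ↔ ((0, 0, Pi.single a u) : LQ C (n + 1)) ∈ S := fun _ _ => Iff.rfl
  choose Nn hN1 hN2 hN3 hN4 using fun a : C => hlift (Pi.single (Sum.inl a) 1)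
  choose Y hY1 hY2 hY3 hY4 using fun a : C => hlift (Pi.single (Sum.inr a) 1)
  have hshift : ∀ (a : C) (ν : C → Fin (n + 1) → ℂ), ((0, 0, ν) : LQ C (n + 1)) ∈ S →
      ν a ᵥ* Nm (n + 1) ∈ T a := by
    intro a ν hν
    have h1 := S.neg_mem (hS.hbr _ (hN1 a) _ hν)
    rw [hT]
    refine (congrArg (· ∈ S) ?_).mp h1
    refine Prod.ext ?_ (Prod.ext (funext fun b => ?_) (funext fun b => ?_))
    · change -(0 : ℂ) = 0
      exact neg_zero
    · change -((Nn a).2.1 b * 0 - (Nn a).1 * 0) = 0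
      ring
    · change -((Nn a).2.2 b ᵥ* ((0 : ℂ) • Em (n + 1) + (0 : ℂ) • Nm (n + 1)) -
        ν b ᵥ* ((Nn a).1 • Em (n + 1) + (Nn a).2.1 b • Nm (n + 1))) =
        (Pi.single a (ν a ᵥ* Nm (n + 1)) : C → Fin (n + 1) → ℂ) b
      rw [hN2, hN3, zero_smul, zero_smul, add_zero, vecMul_zero, zero_sub, neg_neg,
        zero_add, vecMul_smul]
      by_cases h : b = a
      · subst h
        rw [Pi.single_eq_same, Pi.single_eq_same, one_smul]
      · have h2 : (Sum.inl b : C ⊕ C) ≠ Sum.inl a := fun e => h (Sum.inl.inj e)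
        rw [Pi.single_eq_of_ne h, Pi.single_eq_of_ne h2, zero_smul]
  have hYe : ∀ a, Y a = (0, 0, (Y a).2.2) := by
    intro a
    refine Prod.ext (hY2 a) (Prod.ext (funext fun b => ?_) rfl)
    rw [hY3 a b]
    exact Pi.single_eq_of_ne (by simp) _
  -- the triangular basis
  have hu : ∀ (a : C) (j : ℕ), 1 ≤ j → j < n + 1 → ∃ u ∈ T a,
      (∀ i : Fin (n + 1), (i : ℕ) < j → u i = 0) ∧ ∀ i : Fin (n + 1), (i : ℕ) = j → u i = 1 := by
    intro a j hj
    induction j, hj using Nat.le_induction with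
    | base =>
      intro _
      refine ⟨(Y a).2.2 a ᵥ* Nm (n + 1), hshift a _ (by rw [← hYe]; exact hY1 a), ?_, ?_⟩
      · intro i hi
        have : i = 0 := Fin.ext (by simpa using Nat.lt_one_iff.1 hi)
        rw [this, vecMul_Nm_zero]
      · intro i hi
        rw [vecMul_Nm_succ _ i 0 (by omega)]
        have h1 := hY4 a a
        rw [Pi.single_eq_same] at h1
        exact h1
    | succ j hj ih =>
      intro hj2
      obtain ⟨u, hu, hu1, hu2⟩ := ih (by omega)
      refine ⟨u ᵥ* Nm (n + 1), ?_, ?_, ?_⟩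
      · have h1 := hshift a (Pi.single a u) ((hT a u).1 hu)
        rwa [Pi.single_eq_same] at h1
      · intro i hi
        rcases Nat.eq_zero_or_pos (i : ℕ) with h0 | h0
        · have : i = 0 := Fin.ext (by simpa using h0)
          rw [this, vecMul_Nm_zero]
        · rw [vecMul_Nm_succ _ i ((i : ℕ) - 1) (by omega)]
          exact hu1 _ (by change (i : ℕ) - 1 < j; omega)
      · intro i hi
        rw [vecMul_Nm_succ _ i j hi]
        exact hu2 _ rfl
  have hT0 : ∀ (a : C) (k j : ℕ), j + k = n + 1 → 1 ≤ j → ∀ u : Fin (n + 1) → ℂ,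
      (∀ i : Fin (n + 1), (i : ℕ) < j → u i = 0) → u ∈ T a := by
    intro a k
    induction k with
    | zero =>
      intro j hj _ u hu0
      have : u = 0 := funext fun i => hu0 i (by have := i.2; omega)
      rw [this]
      exact (T a).zero_mem
    | succ k ih =>
      intro j hj hj1 u hu0
      obtain ⟨e, he, he1, he2⟩ := hu a j hj1 (by omega)
      have h1 := ih (j + 1) (by omega) (by omega) (u - u ⟨j, by omega⟩ • e) (fun i hi => by
        rw [Pi.sub_apply, Pi.smul_apply, smul_eq_mul]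
        rcases Nat.lt_or_ge (i : ℕ) j with h | h
        · rw [hu0 i h, he1 i h, mul_zero, sub_zero]
        · have h2 : (i : ℕ) = j := by omega
          have h3 : i = ⟨j, by omega⟩ := Fin.ext h2
          rw [he2 i h2, mul_one, h3, sub_self])
      have h2 := (T a).add_mem h1 ((T a).smul_mem (u ⟨j, by omega⟩) he)
      rwa [sub_add_cancel] at h2
  have hsum : ∀ ν : C → Fin (n + 1) → ℂ, (∀ a, ν a ∈ T a) → ((0, 0, ν) : LQ C (n + 1)) ∈ S := by
    intro ν hν
    have h1 := S.sum_mem fun a (_ : a ∈ Finset.univ) => (hT a _).1 (hν a)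
    refine (congrArg (· ∈ S) ?_).mp h1
    refine Prod.ext ?_ (Prod.ext ?_ ?_)
    · rw [Prod.fst_sum]
      exact Finset.sum_eq_zero fun _ _ => rfl
    · rw [Prod.snd_sum, Prod.fst_sum]
      exact Finset.sum_eq_zero fun _ _ => rfl
    · rw [Prod.snd_sum, Prod.snd_sum]
      exact Finset.univ_sum_single ν
  have hTtop : ∀ (a : C) (u : Fin (n + 1) → ℂ), u ∈ T a := by
    intro a u
    -- the first unit vector
    have h1 : ((0, 0, fun b i => if i = 0 then 0 else (Y a).2.2 b i) : LQ C (n + 1)) ∈ S := by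
      refine hsum _ fun b => hT0 b n 1 (by omega) le_rfl _ fun i hi => ?_
      have : i = 0 := Fin.ext (by simpa using Nat.lt_one_iff.1 hi)
      simp [this]
    have h2 := S.sub_mem (hY1 a) h1
    have h3 : (Pi.single 0 1 : Fin (n + 1) → ℂ) ∈ T a := by
      rw [hT]
      refine (congrArg (· ∈ S) ?_).mp h2
      rw [hYe a]
      refine Prod.ext (sub_zero _) (Prod.ext (sub_zero _) (funext fun b => funext fun i => ?_))
      change (Y a).2.2 b i - (if i = 0 then 0 else (Y a).2.2 b i) =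
        (Pi.single a (Pi.single 0 1) : C → Fin (n + 1) → ℂ) b i
      by_cases hi : i = 0
      · subst hi
        rw [if_pos rfl, sub_zero, hY4]
        by_cases hb : b = a
        · subst hb
          rw [Pi.single_eq_same, Pi.single_eq_same, Pi.single_eq_same]
        · have h4 : (Sum.inr b : C ⊕ C) ≠ Sum.inr a := fun e => hb (Sum.inr.inj e)
          rw [Pi.single_eq_of_ne hb, Pi.single_eq_of_ne h4]
          rfl
      · rw [if_neg hi, sub_self]
        by_cases hb : b = a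
        · subst hb
          rw [Pi.single_eq_same, Pi.single_eq_of_ne hi]
        · rw [Pi.single_eq_of_ne hb]
          rfl
    have h4 := hT0 a n 1 (by omega) le_rfl (u - u 0 • (Pi.single 0 1 : Fin (n + 1) → ℂ))
      (fun i hi => by
        have : i = 0 := Fin.ext (by simpa using Nat.lt_one_iff.1 hi)
        rw [this]
        simp)
    have h5 := (T a).add_mem h4 ((T a).smul_mem (u 0) h3)
    rwa [sub_add_cancel] at h5
  have hν : ∀ ν : C → Fin (n + 1) → ℂ, ((0, 0, ν) : LQ C (n + 1)) ∈ S := fun ν =>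
    hsum ν fun a => hTtop a _
  have hξ : ∀ ξ : C → ℂ, ((0, ξ, 0) : LQ C (n + 1)) ∈ S := by
    intro ξ
    obtain ⟨Z, hZ, hZ1, hZ2, -⟩ := hlift (Sum.elim ξ 0)
    have h1 := S.sub_mem hZ (hν Z.2.2)
    refine (congrArg (· ∈ S) ?_).mp h1
    refine Prod.ext ?_ (Prod.ext (funext fun a => ?_) (sub_self _))
    · change Z.1 - 0 = 0
      rw [hZ1, sub_zero]
    · change Z.2.1 a - 0 = ξ a
      rw [hZ2, sub_zero]
      rfl
  obtain ⟨W, hW, hW1, -, -⟩ := hS.exists_unit hI hτ hKA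
  have h1 := S.add_mem (S.add_mem (S.smul_mem X.1 hW) (hξ (X.2.1 - X.1 • W.2.1)))
    (hν (X.2.2 - X.1 • W.2.2))
  refine (congrArg (· ∈ S) ?_).mp h1
  refine Prod.ext ?_ (Prod.ext ?_ ?_)
  · change X.1 * W.1 + 0 + 0 = X.1
    rw [hW1, mul_one, add_zero, add_zero]
  · change X.1 • W.2.1 + (X.2.1 - X.1 • W.2.1) + 0 = X.2.1
    rw [add_sub_cancel, add_zero]
  · change X.1 • W.2.2 + 0 + (X.2.2 - X.1 • W.2.2) = X.2.2
    rw [add_zero, add_sub_cancel]

end Pool.Agent.TH119.PL
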