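import Mathlib
import Pool.Agent.TH119.PL.Lie

/-!
# Main theorem on the period matrices of polylogarithms
-/

set_option linter.unusedSectionVars false

namespace Pool.Agent.TH119.PL

open Finset Matrix Pool.Agent.W437.HK Pool.Agent.TH119.DR Pool.Agent.TH119.MX

variable {C : Type} [Fintype C] [DecidableEq C] {n : ℕ}

theorem gm_der {τ : ℂ} (hτ : τ ≠ 0) (x : C → ℂ) (v : C → Fin n → ℂ) (δ : Derivation ℚ ℂ ℂ) :
    (gm τ x v).map δ * gm τ⁻¹ (fun a => -(x a * τ⁻¹))
      (fun a => -(v a ᵥ* Bm n τ⁻¹ (-(x a * τ⁻¹)))) =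
    lm (δ τ / τ, fun a => δ (x a) / τ,
      fun a => (fun i => δ (v a i)) ᵥ* Bm n τ⁻¹ (-(x a * τ⁻¹))) := by
  unfold gm lm
  rw [blockDiagonal_map _ _ (map_zero δ), ← blockDiagonal_mul]
  congr 1
  funext a
  rw [fromBlocks_map, fromBlocks_multiply]
  have h1 : (1 : Matrix Unit Unit ℂ).map δ = 0 := by
    ext i j
    simp
  have h0 : (0 : Matrix (Fin n) Unit ℂ).map δ = 0 := Matrix.map_zero _ (map_zero δ)
  rw [h1, h0]
  congr 1
  · rw [Matrix.zero_mul, Matrix.mul_zero, add_zero]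
  · rw [Matrix.zero_mul, zero_add, replicateRow_vecMul]
    rfl
  · rw [Matrix.zero_mul, Matrix.mul_zero, add_zero]
  · rw [Matrix.zero_mul, zero_add, Bm_der hτ, Matrix.mul_assoc, Bm_inv hτ, Matrix.mul_one]

theorem vecMul_Bm_zero (u : Fin (n + 1) → ℂ) (τ x : ℂ) : (u ᵥ* Bm (n + 1) τ x) 0 = u 0 * τ := by
  rw [Matrix.vecMul, dotProduct, Finset.sum_eq_single 0]
  · simp [Bm]
  · intro b _ hb
    have h1 : ¬ b ≤ 0 := fun h => hb (Fin.le_zero_iff.1 h)
    simp only [Bm, Matrix.of_apply, if_neg h1, mul_zero]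
  · intro h
    exact absurd (Finset.mem_univ _) h

variable {K : Subfield ℂ} {τ : ℂ} {x : C → ℂ} {v : C → Fin (n + 1) → ℂ}
  {H : Set (Matrix (IQ C (n + 1)) (IQ C (n + 1)) ℂ)} {A A' : Matrix (IQ C (n + 1)) (IQ C (n + 1)) ℂ}

/-- The stabilizer. -/
def SQ (H : Set (Matrix (IQ C (n + 1)) (IQ C (n + 1)) ℂ)) (d : ℕ) :
    Submodule ℂ (LQ C (n + 1)) where
  carrier := {X | Stab H d (lm X)}
  zero_mem' := by
    have h1 := lm_smul 0 (0 : LQ C (n + 1))
    rw [zero_smul, zero_smul] at h1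
    change Stab H d (lm 0)
    rw [← h1]
    exact Stab.zero
  add_mem' := by
    intro X Y hX hY
    change Stab H d (lm (X + Y))
    rw [← lm_add]
    exact Stab.add hX hY
  smul_mem' := by
    intro c X hX
    change Stab H d (lm (c • X))
    rw [← lm_smul]
    exact Stab.smul c hX

theorem good_SQ (hH : AlgGrp K H) (hKA : ∀ x, IsAlgebraic ℚ x ↔ x ∈ K) (hτ : τ ≠ 0)
    (hA : A * A' = 1) (hA' : ∀ i j, A' i j ∈ K) (hPA : gm τ x v * A ∈ H) (d : ℕ) :
    GoodQ K τ x (fun a => v a 0) (SQ H d) where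
  hbr X hX Y hY := by
    change Stab H d (lm (bq X Y))
    rw [← lm_comm]
    exact Stab.comm hX hY
  hF f X hX := by
    change Stab H d (lm (fq f X))
    rw [← lm_map]
    exact hH.stab_map f hX
  hder δ := by
    have h1 := gm_inv hτ x v
    have h2 := hH.stab_der le_rfl (fun x hx => (hKA x).2 hx) h1 (mul_eq_one_comm.1 h1) hA hA' hPA
      (d := d) δ
    rw [gm_der hτ] at h2
    refine ⟨_, h2, rfl, fun _ => rfl, fun a => ?_⟩
    change ((fun i => δ (v a i)) ᵥ* Bm (n + 1) τ⁻¹ (-(x a * τ⁻¹))) 0 = δ (v a 0) / τ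
    rw [vecMul_Bm_zero]
    rfl

section gen

variable (hst : ∀ (X : LQ C (n + 1)) (d : ℕ), Stab H d (lm X))

include hst

theorem presQ_v (v : C → Fin (n + 1) → ℂ) : Pres H (gm 1 0 v) := by
  have h1 : lm ((0, 0, v) : LQ C (n + 1)) * lm (0, 0, v) = (0 : ℂ) • lm (0, 0, v) := by
    rw [zero_smul]
    unfold lm
    rw [← blockDiagonal_mul]
    have h2 : ∀ a : C, fromBlocks (0 : Matrix Unit Unit ℂ) (replicateRow Unit (v a)) 0
        ((0 : ℂ) • Em (n + 1) + (0 : ℂ) • Nm (n + 1)) *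
        fromBlocks (0 : Matrix Unit Unit ℂ) (replicateRow Unit (v a)) 0
        ((0 : ℂ) • Em (n + 1) + (0 : ℂ) • Nm (n + 1)) = 0 := by
      intro a
      rw [fromBlocks_multiply]
      simp
    have h3 : (fun a : C => fromBlocks (0 : Matrix Unit Unit ℂ) (replicateRow Unit (v a)) 0
        ((0 : ℂ) • Em (n + 1) + (0 : ℂ) • Nm (n + 1)) *
        fromBlocks (0 : Matrix Unit Unit ℂ) (replicateRow Unit (v a)) 0
        ((0 : ℂ) • Em (n + 1) + (0 : ℂ) • Nm (n + 1))) = 0 := funext h2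
    exact (congrArg blockDiagonal h3).trans blockDiagonal_zero
  have h2 := pres_of_stab h1 (fun d => hst _ d) 1
  refine (congrArg (Pres H) ?_).mp h2
  rw [one_smul]
  have h3 : (1 : Matrix (IQ C (n + 1)) (IQ C (n + 1)) ℂ) = blockDiagonal fun _ => 1 :=
    blockDiagonal_one.symm
  rw [h3]
  unfold lm gm
  rw [← blockDiagonal_add]
  congr 1
  funext a
  rw [Pi.add_apply, ← fromBlocks_one, fromBlocks_add]
  congr 1
  · exact add_zero _
  · exact zero_add _
  · exact add_zero _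
  · change 1 + ((0 : ℂ) • Em (n + 1) + (0 : ℂ) • Nm (n + 1)) = Bm (n + 1) 1 0
    rw [zero_smul, zero_smul, add_zero, add_zero, Bm_one]

theorem presQ_torus (x : C → ℂ) (s : ℂ) : Pres H (gm s (fun a => x a * (s - 1)) 0) := by
  set m : IQ C (n + 1) → ℕ := fun b =>
    Sum.elim (fun _ : Unit => (0 : ℕ)) (fun i : Fin (n + 1) => (i : ℕ) + 1) b.1 with hm
  have e1 : (diagonal fun b => (m b : ℂ)) = lm ((1, 0, 0) : LQ C (n + 1)) := by
    unfold lm
    ext ⟨i, a⟩ ⟨j, b⟩
    rw [blockDiagonal_apply, Matrix.diagonal_apply]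
    by_cases hab : a = b
    · subst hab
      rw [if_pos rfl]
      rcases i with i | i <;> rcases j with j | j
      · simp [m]
      · simp
      · simp
      · by_cases hij : i = j
        · subst hij
          simp [m, Em]
        · simp [Em, hij]
    · rw [if_neg hab, if_neg]
      intro h
      exact hab (congrArg Prod.snd h)
  have e2 : (diagonal fun b => s ^ m b) = gm s (0 : C → ℂ) (0 : C → Fin (n + 1) → ℂ) := by
    unfold gm
    ext ⟨i, a⟩ ⟨j, b⟩
    rw [blockDiagonal_apply, Matrix.diagonal_apply]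
    by_cases hab : a = b
    · subst hab
      rw [if_pos rfl]
      rcases i with i | i <;> rcases j with j | j
      · simp [m]
      · simp
      · simp
      · by_cases hij : i = j
        · subst hij
          simp [m, Bm]
        · have h1 : (if i ≤ j then s ^ ((i : ℕ) + 1) * (0 : ℂ) ^ ((j : ℕ) - i) /
              ((((j : ℕ) - i).factorial : ℕ) : ℂ) else 0) = 0 := by
            split_ifs with h
            · have h2 : (j : ℕ) - i ≠ 0 := by
                have h3 : (i : ℕ) ≤ j := h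
                have h4 : ¬ (i : ℕ) = j := fun e => hij (Fin.ext e)
                omega
              rw [zero_pow h2, mul_zero, zero_div]
            · rfl
          have h2 : ¬ ((Sum.inr i, a) : IQ C (n + 1)) = (Sum.inr j, a) := by
            intro e
            exact hij (Sum.inr.inj (congrArg Prod.fst e))
          rw [if_neg h2]
          exact h1.symm
    · rw [if_neg hab, if_neg]
      intro h
      exact hab (congrArg Prod.snd h)
  have h1 : gm 1 x (0 : C → Fin (n + 1) → ℂ) * gm 1 (fun a => -x a) 0 = 1 := by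
    rw [gm_mul, ← gm_one]
    congr 1
    · exact one_mul _
    · funext a
      change x a * 1 + -x a = 0
      ring
    · funext a
      change 0 + (0 : Fin (n + 1) → ℂ) ᵥ* _ = 0
      rw [zero_vecMul, add_zero]
  have h2 := mul_eq_one_comm.1 h1
  have h3 : ∀ d, Stab H d (gm 1 x 0 * diagonal (fun b => (m b : ℂ)) * gm 1 (fun a => -x a) 0) := by
    intro d
    have h4 : gm 1 x 0 * diagonal (fun b => (m b : ℂ)) * gm 1 (fun a => -x a) 0 =
        lm ((1, x, 0) : LQ C (n + 1)) := by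
      rw [e1]
      unfold gm lm
      rw [← blockDiagonal_mul, ← blockDiagonal_mul]
      congr 1
      funext a
      rw [fromBlocks_multiply, fromBlocks_multiply]
      have h5 : replicateRow Unit ((0 : C → Fin (n + 1) → ℂ) a) = 0 := by
        ext i j
        rfl
      have h6 : Bm (n + 1) 1 (x a) * Bm (n + 1) 1 (-x a) = 1 := by
        rw [Bm_mul, mul_one, mul_one, add_neg_cancel, Bm_one]
      change fromBlocks _ _ _ _ = fromBlocks 0 (replicateRow Unit ((0 : C → Fin (n + 1) → ℂ) a)) 0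
        ((1 : ℂ) • Em (n + 1) + x a • Nm (n + 1))
      rw [h5]
      congr 1
      · simp
      · simp
      · simp
      · change ((0 : Matrix (Fin (n + 1)) Unit ℂ) * 0 + Bm (n + 1) 1 (x a) * 0) * 0 +
          ((0 : Matrix (Fin (n + 1)) Unit ℂ) * replicateRow Unit (0 : Fin (n + 1) → ℂ) +
            Bm (n + 1) 1 (x a) * ((1 : ℂ) • Em (n + 1) + (0 : ℂ) • Nm (n + 1))) *
            Bm (n + 1) 1 (-x a) = _
        rw [Matrix.zero_mul, Matrix.zero_mul, Matrix.mul_zero, zero_add, zero_add, one_smul,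
          zero_smul, add_zero, Bm_conj, Matrix.mul_assoc, h6, Matrix.mul_one]
    rw [h4]
    exact hst _ d
  have h4 := pres_of_diag h1 h2 m h3 s
  rw [e2, gm_mul, gm_mul] at h4
  refine (congrArg (Pres H) ?_).mp h4
  congr 1
  · ring
  · funext a
    change (x a * s + 0) * 1 + -x a = x a * (s - 1)
    ring
  · funext a
    change 0 + (0 + (0 : Fin (n + 1) → ℂ) ᵥ* _) ᵥ* _ = 0
    rw [zero_vecMul, add_zero, zero_vecMul, add_zero]

theorem presQ_mul {τ τ' : ℂ} {x x' : C → ℂ} (h : Pres H (gm τ x (0 : C → Fin (n + 1) → ℂ)))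
    (h' : Pres H (gm τ' x' (0 : C → Fin (n + 1) → ℂ))) :
    Pres H (gm (τ * τ') (fun a => x a * τ' + x' a) (0 : C → Fin (n + 1) → ℂ)) := by
  have h1 := h.mul h'
  rw [gm_mul] at h1
  refine (congrArg (fun v => Pres H (gm (τ * τ') (fun a => x a * τ' + x' a) v)) ?_).mp h1
  funext a
  change 0 + (0 : Fin (n + 1) → ℂ) ᵥ* _ = 0
  rw [zero_vecMul, add_zero]

theorem presQ_all (τ : ℂ) (y : C → ℂ) (v : C → Fin (n + 1) → ℂ) : Pres H (gm τ y v) := by
  have h1 : Pres H (gm 1 y (0 : C → Fin (n + 1) → ℂ)) := by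
    have h2 := presQ_mul hst (presQ_torus hst (fun a => 2 * y a) 2)
      (presQ_torus hst (0 : C → ℂ) (1 / 2))
    refine (congrArg₂ (fun t x => Pres H (gm t x (0 : C → Fin (n + 1) → ℂ))) ?_ ?_).mp h2
    · norm_num
    · funext a
      change 2 * y a * (2 - 1) * (1 / 2) + 0 * (1 / 2 - 1) = y a
      ring
  have h2 : Pres H (gm τ y (0 : C → Fin (n + 1) → ℂ)) := by
    have h3 := presQ_mul hst (presQ_torus hst (0 : C → ℂ) τ) h1
    refine (congrArg₂ (fun t x => Pres H (gm t x (0 : C → Fin (n + 1) → ℂ))) ?_ ?_).mp h3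
    · ring
    · funext a
      change 0 * (τ - 1) * 1 + y a = y a
      ring
  have h3 := h2.mul (presQ_v hst v)
  rw [gm_mul] at h3
  refine (congrArg (Pres H) ?_).mp h3
  congr 1
  · ring
  · funext a
    change y a * 1 + 0 = y a
    ring
  · funext a
    change v a + (0 : Fin (n + 1) → ℂ) ᵥ* _ = v a
    rw [zero_vecMul, add_zero]

end gen

/-- **Main theorem.** -/
theorem poly_main (hH : AlgGrp K H) (hKA : ∀ x, IsAlgebraic ℚ x ↔ x ∈ K) (hτ : τ ≠ 0)
    (hI : IndepQ K τ x (fun a => v a 0)) (hA : A * A' = 1) (hA' : ∀ i j, A' i j ∈ K)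
    (hPA : gm τ x v * A ∈ H) {τ' : ℂ} (hτ' : τ' ≠ 0) (x' : C → ℂ) (v' : C → Fin (n + 1) → ℂ) :
    gm τ' x' v' ∈ H := by
  have hst : ∀ (X : LQ C (n + 1)) (d : ℕ), Stab H d (lm X) := fun X d =>
    (good_SQ hH hKA hτ hA hA' hPA d).top hI hτ hKA X
  have h1 := gm_inv hτ' x' v'
  exact hH.mem_of_pres (presQ_all hst τ' x' v') h1 (mul_eq_one_comm.1 h1)

end Pool.Agent.TH119.PL
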